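import Pool.Agent.W337.WL.Fix

set_option autoImplicit false
set_option linter.all false

open MeasureTheory Set
open scoped ENNReal NNReal

namespace Pool.Agent.W918.WL

open Pool.Agent.W172.WL Pool.Agent.W337.WL

theorem summ (b : ℕ) (α : ℝ) (hb : 2 ≤ b) (hα : 0 < α) : Summable fun k : ℕ => (b : ℝ) ^ (-(α * k)) := by
  have hb0 : (0 : ℝ) < b := by positivity
  have hb1 : (1 : ℝ) < b := by exact_mod_cast (by omega : 1 < b)
  have h : (fun k : ℕ => (b : ℝ) ^ (-(α * k))) = fun k : ℕ => ((b : ℝ) ^ (-α)) ^ k := by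
    funext k
    rw [← Real.rpow_natCast, ← Real.rpow_mul hb0.le]
    congr 1
    ring
  rw [h]
  apply summable_geometric_of_lt_one (by positivity)
  exact Real.rpow_lt_one_of_one_lt_of_neg hb1 (by linarith)

theorem term_bd (b : ℕ) (α : ℝ) {g : ℝ → ℝ} (hg : LipPer g) (x : ℝ) (k : ℕ) :
    ‖(b : ℝ) ^ (-(α * k)) * g ((b : ℝ) ^ k * x)‖ ≤ (b : ℝ) ^ (-(α * k)) * supN g := by
  have h0 : (0 : ℝ) ≤ (b : ℝ) ^ (-(α * k)) := by positivity
  rw [norm_mul, Real.norm_of_nonneg h0]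
  exact mul_le_mul_of_nonneg_left (le_supN hg _) h0

theorem term_summ (b : ℕ) (α : ℝ) (hb : 2 ≤ b) (hα : 0 < α) {g : ℝ → ℝ} (hg : LipPer g) (x : ℝ) :
    Summable fun k : ℕ => (b : ℝ) ^ (-(α * k)) * g ((b : ℝ) ^ k * x) :=
  Summable.of_norm_bounded ((summ b α hb hα).mul_right _) (term_bd b α hg x)

theorem W_cont (b : ℕ) (α : ℝ) (hb : 2 ≤ b) (hα : 0 < α) {g : ℝ → ℝ} (hg : LipPer g) :
    Continuous (W b α g) := by
  unfold W
  refine continuous_tsum (u := fun k : ℕ => (b : ℝ) ^ (-(α * k)) * supN g) (fun k => ?_)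
    ((summ b α hb hα).mul_right _) (fun k x => term_bd b α hg x k)
  exact continuous_const.mul (hg.continuous.comp (continuous_const.mul continuous_id))

theorem W_sub (b : ℕ) (α : ℝ) (hb : 2 ≤ b) (hα : 0 < α) (g h : LS) (x : ℝ) :
    |W b α g.fn x - W b α h.fn x| ≤ (∑' k : ℕ, (b : ℝ) ^ (-(α * k))) * ‖g - h‖ := by
  unfold W
  rw [← (term_summ b α hb hα g.lipPer x).tsum_sub (term_summ b α hb hα h.lipPer x)]
  have h1 : ∀ k : ℕ, (b : ℝ) ^ (-(α * k)) * g.fn ((b : ℝ) ^ k * x) -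
      (b : ℝ) ^ (-(α * k)) * h.fn ((b : ℝ) ^ k * x) =
      (b : ℝ) ^ (-(α * k)) * (g - h : LS).fn ((b : ℝ) ^ k * x) := by
    intro k
    have : (g - h : LS).fn ((b : ℝ) ^ k * x) = g.fn ((b : ℝ) ^ k * x) - h.fn ((b : ℝ) ^ k * x) := rfl
    rw [this]
    ring
  simp only [h1]
  rw [← Real.norm_eq_abs]
  rw [← tsum_mul_right]
  apply tsum_of_norm_bounded ((summ b α hb hα).mul_right _).hasSum
  intro k
  refine (term_bd b α (g - h).lipPer x k).trans ?_
  apply mul_le_mul_of_nonneg_left _ (by positivity)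
  rw [LS.norm_def]
  have := lipN_nonneg (g - h : LS).fn
  linarith

theorem F_cont_g (b : ℕ) (α : ℝ) (hb : 2 ≤ b) (hα : 0 < α) (n z : ℕ) (u : ℝ) :
    Continuous fun g : LS => F b α g.fn n z u := by
  unfold F
  apply Continuous.mul continuous_const
  have hC : 0 ≤ ∑' k : ℕ, (b : ℝ) ^ (-(α * k)) := tsum_nonneg fun k => by positivity
  refine (LipschitzWith.of_dist_le_mul (K := ⟨_, hC⟩) fun g h => ?_).continuous
  rw [Real.dist_eq, dist_eq_norm]
  exact W_sub b α hb hα g h _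

theorem F_cont_u (b : ℕ) (α : ℝ) (hb : 2 ≤ b) (hα : 0 < α) (n z : ℕ) {g : ℝ → ℝ} (hg : LipPer g) :
    Continuous fun u => F b α g n z u := by
  unfold F
  apply Continuous.mul continuous_const
  apply (W_cont b α hb hα hg).comp
  exact (continuous_const.add continuous_id).div_const _

theorem norm_exp (x : ℝ) : ‖Complex.exp (Complex.I * ((x : ℝ) : ℂ))‖ = 1 := by
  rw [mul_comm]
  exact Complex.norm_exp_ofReal_mul_I x

theorem integ (b : ℕ) (α : ℝ) (hb : 2 ≤ b) (hα : 0 < α) (n z : ℕ) {g : ℝ → ℝ} (hg : LipPer g) (ξ : ℝ) :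
    Continuous fun u : ℝ => Complex.exp (Complex.I * ((ξ * F b α g n z u : ℝ) : ℂ)) := by
  have := F_cont_u b α hb hα n z hg
  fun_prop

theorem nu_cont_g (b : ℕ) (α : ℝ) (hb : 2 ≤ b) (hα : 0 < α) (n z : ℕ) (ξ : ℝ) :
    Continuous fun g : LS => nuHat b α g.fn n z ξ := by
  unfold nuHat
  refine continuous_of_dominated (bound := fun _ => 1) (fun g => ?_) (fun g => ?_) ?_ ?_
  · exact (integ b α hb hα n z g.lipPer ξ).aestronglyMeasurable
  · exact Filter.Eventually.of_forall fun u => (norm_exp _).le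
  · exact integrable_const _
  · refine Filter.Eventually.of_forall fun u => ?_
    have := F_cont_g b α hb hα n z u
    fun_prop

theorem nu_cont_xi (b : ℕ) (α : ℝ) (hb : 2 ≤ b) (hα : 0 < α) (n z : ℕ) {g : ℝ → ℝ} (hg : LipPer g) :
    Continuous fun ξ : ℝ => nuHat b α g n z ξ := by
  unfold nuHat
  refine continuous_of_dominated (bound := fun _ => 1) (fun ξ => ?_) (fun ξ => ?_) ?_ ?_
  · exact (integ b α hb hα n z hg ξ).aestronglyMeasurable
  · exact Filter.Eventually.of_forall fun u => (norm_exp _).le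
  · exact integrable_const _
  · refine Filter.Eventually.of_forall fun u => ?_
    fun_prop

theorem nu_le (b : ℕ) (α : ℝ) (n z : ℕ) (g : ℝ → ℝ) (ξ : ℝ) : ‖nuHat b α g n z ξ‖ ≤ 1 := by
  unfold nuHat
  have h := norm_setIntegral_le_of_norm_le_const (μ := volume) (s := Icc (0 : ℝ) 1) (C := 1)
    (f := fun u : ℝ => Complex.exp (Complex.I * ((ξ * F b α g n z u : ℝ) : ℂ))) (by simp)
    (fun u _ => (norm_exp _).le)
  simpa using h

theorem blk_fin (b : ℕ) (α : ℝ) (L : ℕ) : IsFiniteMeasure (volume.restrict (Blk b α L)) := by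
  have h : Blk b α L ⊆ Icc (-((b : ℝ) ^ (th α * (L + 1)))) ((b : ℝ) ^ (th α * (L + 1))) := by
    intro ξ hξ
    rw [mem_Icc]
    exact abs_le.1 hξ.2
  refine ⟨?_⟩
  rw [Measure.restrict_apply_univ]
  refine (measure_mono h).trans_lt ?_
  rw [Real.volume_Icc]
  exact ENNReal.ofReal_lt_top

theorem I_cont (b : ℕ) (α : ℝ) (hb : 2 ≤ b) (hα : 0 < α) (L n z : ℕ) :
    Continuous fun g : LS => ∫ ξ in Blk b α L, ‖nuHat b α g.fn n z ξ‖ ^ 2 := by
  have := blk_fin b α L
  refine continuous_of_dominated (bound := fun _ => 1) (fun g => ?_) (fun g => ?_) ?_ ?_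
  · exact ((nu_cont_xi b α hb hα n z g.lipPer).norm.pow 2).aestronglyMeasurable
  · refine Filter.Eventually.of_forall fun ξ => ?_
    rw [Real.norm_of_nonneg (by positivity)]
    exact pow_le_one₀ (norm_nonneg _) (nu_le b α n z _ ξ)
  · exact integrable_const _
  · exact Filter.Eventually.of_forall fun ξ => (nu_cont_g b α hb hα n z ξ).norm.pow 2

theorem borel2 : S_BOREL2 := by
  intro b α hb hα hα1
  letI : MeasurableSpace LS := _root_.borel LS
  haveI : BorelSpace LS := ⟨rfl⟩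
  have hb0 : (0 : ℝ) < b := by positivity
  have h : {g : LS | G1 b α g.fn} = ⋃ M : ℕ, ⋂ L : ℕ, ⋂ n : ℕ, ⋂ z : ℕ, ⋂ _ : n ≤ mL α L, ⋂ _ : z < b ^ n,
      {g : LS | ∫ ξ in Blk b α L, ‖nuHat b α g.fn n z ξ‖ ^ 2 ≤ (M : ℝ) * (b : ℝ) ^ (-(et α * L))} := by
    ext g
    simp only [mem_setOf_eq, mem_iUnion, mem_iInter]
    constructor
    · rintro ⟨M, hM⟩
      refine ⟨⌈M⌉₊, fun L n z h1 h2 => (hM L n z h1 h2).trans ?_⟩
      exact mul_le_mul_of_nonneg_right (Nat.le_ceil M) (by positivity)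
    · rintro ⟨M, hM⟩
      exact ⟨M, hM⟩
  show MeasurableSet {g : LS | G1 b α g.fn}
  rw [h]
  refine MeasurableSet.iUnion fun M => MeasurableSet.iInter fun L => MeasurableSet.iInter fun n =>
    MeasurableSet.iInter fun z => MeasurableSet.iInter fun _ => MeasurableSet.iInter fun _ => ?_
  exact (isClosed_le (I_cont b α hb hα L n z) continuous_const).measurableSet

end Pool.Agent.W918.WL
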